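import Pool.Agent.Q170.UZ.StmN

/-!
# Project UZ, block CRT: integral points which avoid many classes
-/

set_option autoImplicit false

namespace Q52.UZ

open Finset
open Pool.Agent.Q170.UZ (S_CRT)

/-- the members of a class modulo `M` in an interval -/
lemma card_class (M : ℕ) (hM : 0 < M) (H : ℕ) (c : ℤ) :
    ((((Icc (-(H : ℤ)) H).filter fun u => u ≡ c [ZMOD M]).card : ℕ) : ℝ) ≤ (2 * H + 1) / M + 1 := by
  have hM' : (0 : ℤ) < (M : ℤ) := by exact_mod_cast hM
  have h1 : (Icc (-(H : ℤ)) H) = Ico (-(H : ℤ)) (H + 1) := by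
    ext x
    simp only [mem_Icc, mem_Ico]
    omega
  rw [h1]
  have h2 := Int.Ico_filter_modEq_card (-(H : ℤ)) (H + 1) hM' c
  have h3 : ((((Ico (-(H : ℤ)) (H + 1)).filter fun u => u ≡ c [ZMOD M]).card : ℤ) : ℚ) ≤
      (2 * H + 1) / M + 1 := by
    rw [h2]
    push_cast
    refine max_le ?_ (by positivity)
    have h4 := Int.ceil_lt_add_one (((H : ℚ) + 1 - c) / (M : ℚ))
    have h5 := Int.le_ceil ((-(H : ℚ) - c) / (M : ℚ))
    have h6 : ((H : ℚ) + 1 - c) / (M : ℚ) - (-(H : ℚ) - c) / (M : ℚ) = (2 * H + 1) / M := by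
      rw [← sub_div]; ring
    linarith
  have h7 : (((((Ico (-(H : ℤ)) (H + 1)).filter fun u => u ≡ c [ZMOD M]).card : ℤ) : ℚ) : ℝ) ≤
      (((2 * H + 1) / M + 1 : ℚ) : ℝ) := by
    exact_mod_cast h3
  push_cast at h7
  exact_mod_cast h7

theorem t_CRT : S_CRT := by
  classical
  intro r S T hr hS ε hε
  have hne : ∀ i : S, NeZero i.1 := fun i => ⟨(hS i.1 i.2).1.ne_zero⟩
  set M : ℕ := ∏ p ∈ S, p with hMdef
  have hM : 0 < M := Finset.prod_pos fun p hp => (hS p hp).1.pos
  have hMr : (0 : ℝ) < (M : ℝ) := by exact_mod_cast hM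
  -- the classes which are allowed
  set G : Finset ((i : S) → Fin r → ZMod i.1) := Fintype.piFinset fun i : S => (T i.1)ᶜ with hG
  have hGc : (G.card : ℝ) ≤ (M : ℝ) ^ r * Real.exp (-(∑ p ∈ S, (1 / p : ℝ)) / 2) := by
    have h1 : (G.card : ℝ) = ∏ i : S, (((T i.1)ᶜ).card : ℝ) := by
      rw [hG, Fintype.card_piFinset]; push_cast; rfl
    have h2 : ∀ i : S, (((T i.1)ᶜ).card : ℝ) ≤ ((i.1 : ℝ)) ^ r * Real.exp (-(1 / (i.1 : ℝ)) / 2) := by
      intro i
      obtain ⟨hp, hc⟩ := hS i.1 i.2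
      have hp0 : (0 : ℝ) < (i.1 : ℝ) := by exact_mod_cast hp.pos
      have h3 : (((T i.1)ᶜ).card : ℝ) = (i.1 : ℝ) ^ r - ((T i.1).card : ℝ) := by
        rw [Finset.card_compl, Nat.cast_sub (Finset.card_le_univ _)]
        congr 1
        rw [Fintype.card_fun, ZMod.card, Fintype.card_fin]
        push_cast; rfl
      have h4 : ((i.1 : ℝ)) ^ (r - 1) ≤ 2 * ((T i.1).card : ℝ) := by exact_mod_cast hc
      have h5 : ((i.1 : ℝ)) ^ r = (i.1 : ℝ) ^ (r - 1) * i.1 := by
        rw [← pow_succ, Nat.sub_add_cancel hr]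
      have h6 : 1 - 1 / (i.1 : ℝ) / 2 ≤ Real.exp (-(1 / (i.1 : ℝ)) / 2) := by
        have := Real.add_one_le_exp (-(1 / (i.1 : ℝ)) / 2)
        linarith
      calc (((T i.1)ᶜ).card : ℝ) ≤ (i.1 : ℝ) ^ r - (i.1 : ℝ) ^ (r - 1) / 2 := by rw [h3]; linarith
        _ = (i.1 : ℝ) ^ r * (1 - 1 / (i.1 : ℝ) / 2) := by
            rw [h5]; field_simp
        _ ≤ _ := mul_le_mul_of_nonneg_left h6 (by positivity)
    calc (G.card : ℝ) ≤ ∏ i : S, (((i.1 : ℝ)) ^ r * Real.exp (-(1 / (i.1 : ℝ)) / 2)) := by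
          rw [h1]
          exact Finset.prod_le_prod (fun i _ => by positivity) fun i _ => h2 i
      _ = (∏ i : S, (i.1 : ℝ)) ^ r * Real.exp (∑ i : S, (-(1 / (i.1 : ℝ)) / 2)) := by
          rw [Finset.prod_mul_distrib, Finset.prod_pow, Real.exp_sum]
      _ = _ := by
          congr 2
          · rw [hMdef, Nat.cast_prod]
            exact Finset.prod_coe_sort S (fun p => (p : ℝ))
          · rw [Finset.sum_coe_sort S (fun p => -(1 / (p : ℝ)) / 2), ← Finset.sum_div,
              Finset.sum_neg_distrib]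
  -- the count
  have key : ∀ H : ℕ,
      ({t : Fin r → ℤ | (∀ j, |t j| ≤ H) ∧ ∀ p ∈ S, (fun j => (t j : ZMod p)) ∉ T p}.ncard : ℝ) ≤
      Real.exp (-(∑ p ∈ S, (1 / p : ℝ)) / 2) * ((2 * H + 1) + M) ^ r := by
    intro H
    set s : Finset (Fin r → ℤ) := (Fintype.piFinset fun _ : Fin r => Icc (-(H : ℤ)) H).filter
      fun t => ∀ p ∈ S, (fun j => (t j : ZMod p)) ∉ T p with hs
    have h1 : {t : Fin r → ℤ | (∀ j, |t j| ≤ H) ∧ ∀ p ∈ S, (fun j => (t j : ZMod p)) ∉ T p} =
        (s : Set (Fin r → ℤ)) := by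
      ext t
      simp only [Set.mem_ofPred_eq, hs, coe_filter, Fintype.mem_piFinset, mem_Icc, abs_le]
    rw [h1, Set.ncard_coe_finset]
    set f : (Fin r → ℤ) → ((i : S) → Fin r → ZMod i.1) := fun t i j => (t j : ZMod i.1) with hf
    have hmaps : ∀ t ∈ s, f t ∈ G := by
      intro t ht
      rw [hG, Fintype.mem_piFinset]
      intro i
      rw [Finset.mem_compl]
      exact (Finset.mem_filter.1 ht).2 i.1 i.2
    have hfib : ∀ b ∈ G, (((s.filter fun t => f t = b).card : ℕ) : ℝ) ≤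
        ((2 * H + 1) / M + 1) ^ r := by
      intro b _
      rcases (s.filter fun t => f t = b).eq_empty_or_nonempty with h0 | ⟨t₀, ht₀⟩
      · rw [h0, Finset.card_empty]
        have : (0 : ℝ) ≤ ((2 * H + 1) / M + 1) ^ r := by positivity
        exact_mod_cast this
      · have hsub : (s.filter fun t => f t = b) ⊆
            Fintype.piFinset fun j : Fin r => (Icc (-(H : ℤ)) H).filter fun u => u ≡ t₀ j [ZMOD M] := by
          intro t ht
          rw [Fintype.mem_piFinset]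
          intro j
          rw [Finset.mem_filter] at ht ht₀ ⊢
          have ht1 := (Finset.mem_filter.1 ht.1).1
          rw [Fintype.mem_piFinset] at ht1
          refine ⟨ht1 j, ?_⟩
          have h2 : (M : ℤ) ∣ t₀ j - t j := by
            rw [hMdef, Nat.cast_prod]
            apply Finset.prod_dvd_of_coprime
            · intro p hp q hq hpq
              have := (Nat.coprime_primes (hS p hp).1 (hS q hq).1).2 hpq
              exact Nat.isCoprime_iff_coprime.2 this
            · intro p hp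
              have h3 : f t = f t₀ := ht.2.trans ht₀.2.symm
              have h4 := congrFun (congrFun h3 ⟨p, hp⟩) j
              simp only [hf] at h4
              exact (ZMod.intCast_eq_intCast_iff_dvd_sub _ _ _).1 h4
          exact Int.modEq_iff_dvd.2 h2
        calc (((s.filter fun t => f t = b).card : ℕ) : ℝ) ≤
            ((Fintype.piFinset fun j : Fin r => (Icc (-(H : ℤ)) H).filter
              fun u => u ≡ t₀ j [ZMOD M]).card : ℝ) := by exact_mod_cast Finset.card_le_card hsub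
          _ = ∏ j : Fin r, ((((Icc (-(H : ℤ)) H).filter fun u => u ≡ t₀ j [ZMOD M]).card : ℕ) : ℝ) := by
              rw [Fintype.card_piFinset]; push_cast; rfl
          _ ≤ ∏ _j : Fin r, ((2 * H + 1) / M + 1 : ℝ) :=
              Finset.prod_le_prod (fun j _ => by positivity) fun j _ => card_class M hM H (t₀ j)
          _ = _ := by rw [Finset.prod_const, Finset.card_univ, Fintype.card_fin]
    have h2 : (s.card : ℝ) ≤ (G.card : ℝ) * ((2 * H + 1) / M + 1) ^ r := by
      rw [Finset.card_eq_sum_card_fiberwise hmaps]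
      push_cast
      calc ∑ b ∈ G, ((((s.filter fun t => f t = b).card : ℕ)) : ℝ) ≤
          ∑ _b ∈ G, ((2 * H + 1) / M + 1 : ℝ) ^ r := Finset.sum_le_sum hfib
        _ = _ := by rw [Finset.sum_const, nsmul_eq_mul]
    calc (s.card : ℝ) ≤ (G.card : ℝ) * ((2 * H + 1) / M + 1) ^ r := h2
      _ ≤ ((M : ℝ) ^ r * Real.exp (-(∑ p ∈ S, (1 / p : ℝ)) / 2)) * ((2 * H + 1) / M + 1) ^ r :=
          mul_le_mul_of_nonneg_right hGc (by positivity)
      _ = Real.exp (-(∑ p ∈ S, (1 / p : ℝ)) / 2) * (M * ((2 * H + 1) / M + 1)) ^ r := by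
          rw [mul_pow]; ring
      _ = _ := by
          congr 2
          field_simp
  -- the limit
  have hE1 : Real.exp (-(∑ p ∈ S, (1 / p : ℝ)) / 2) ≤ 1 := by
    rw [Real.exp_le_one_iff]
    have : (0 : ℝ) ≤ ∑ p ∈ S, (1 / p : ℝ) := Finset.sum_nonneg fun p _ => by positivity
    linarith
  have hE0 := Real.exp_pos (-(∑ p ∈ S, (1 / p : ℝ)) / 2)
  have hlim : Filter.Tendsto (fun H : ℕ => (1 + (M : ℝ) / (2 * H + 1)) ^ r) Filter.atTop (nhds 1) := by
    have h1 : Filter.Tendsto (fun H : ℕ => (M : ℝ) / (2 * H + 1)) Filter.atTop (nhds 0) := by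
      apply Filter.Tendsto.div_atTop tendsto_const_nhds
      apply Filter.tendsto_atTop_add_const_right
      exact Filter.Tendsto.const_mul_atTop (by norm_num) tendsto_natCast_atTop_atTop
    have h2 := (h1.const_add 1).pow r
    simpa using h2
  have hev := hlim.eventually_le_const (show (1 : ℝ) < 1 + ε by linarith)
  obtain ⟨H₀, hH₀⟩ := Filter.eventually_atTop.1 hev
  refine ⟨H₀, fun H hH => (key H).trans ?_⟩
  have h1 := hH₀ H hH
  have h2 : (0 : ℝ) < 2 * H + 1 := by positivity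
  have h3 : ((2 * (H : ℝ) + 1) + M) ^ r = (2 * H + 1) ^ r * (1 + (M : ℝ) / (2 * H + 1)) ^ r := by
    rw [← mul_pow]
    congr 1
    field_simp
  rw [h3]
  set E := Real.exp (-(∑ p ∈ S, (1 / p : ℝ)) / 2)
  have h4 : (0 : ℝ) < (2 * (H : ℝ) + 1) ^ r := pow_pos h2 r
  calc E * ((2 * (H : ℝ) + 1) ^ r * (1 + (M : ℝ) / (2 * H + 1)) ^ r)
      ≤ E * ((2 * (H : ℝ) + 1) ^ r * (1 + ε)) := by gcongr
    _ = (E + E * ε) * (2 * (H : ℝ) + 1) ^ r := by ring
    _ ≤ (E + ε) * (2 * (H : ℝ) + 1) ^ r := by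
        apply mul_le_mul_of_nonneg_right _ h4.le
        have := mul_le_mul_of_nonneg_right hE1 hε.le
        linarith

end Q52.UZ
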